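import Pool.Agent.H789R2.GP.LeafP

/-!
# Paths in a stable leaf; homeomorphisms that preserve the stable leaves (helper575)
-/

set_option autoImplicit false

open Filter Topology Set Metric unitInterval

namespace Run7.h575.HF

open Pool.Agent.H789R2.AN Pool.Agent.H789R2.GP

variable {X : Type*} [MetricSpace X] [CompactSpace X] {g : X ≃ₜ X} {c : ℝ}

/-- uniformly separated sets are countable -/
theorem countable_of_sep {S : Set X} {δ : ℝ} (hδ : 0 < δ)
    (h : ∀ p ∈ S, ∀ q ∈ S, dist p q < δ → p = q) : S.Countable := by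
  rcases S.eq_empty_or_nonempty with rfl | ⟨x, -⟩
  · exact countable_empty
  have : Nonempty X := ⟨x⟩
  have hd := TopologicalSpace.denseRange_denseSeq X
  have h1 : ∀ p : X, ∃ k : ℕ, dist p (TopologicalSpace.denseSeq X k) < δ / 2 := fun p =>
    hd.exists_dist_lt p (half_pos hδ)
  choose k hk using h1
  refine MapsTo.countable_of_injOn (f := k) (t := univ) (fun _ _ => mem_univ _) ?_ (to_countable _)
  intro p hp q hq hpq
  refine h p hp q hq ?_
  have a1 := hk p
  have a2 := hk q
  rw [hpq] at a1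
  have := dist_triangle_right p q (TopologicalSpace.denseSeq X (k q))
  linarith

/-- a leaf meets a small transversal in countably many points -/
theorem countable_slice (hg : LP g c) (x z : X) :
    {p | SR g.symm (c / 3) x p ∧ WS g z p}.Countable := by
  have hc := hg.c_pos
  have hsub : {p | SR g.symm (c / 3) x p ∧ WS g z p} ⊆
      ⋃ n : ℕ, {p | SR g.symm (c / 3) x p ∧ SR g (c / 2) (g^[n] z) (g^[n] p)} := by
    rintro p ⟨h1, h2⟩
    obtain ⟨m, hm⟩ := h2.eventually_lt (half_pos hc)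
    refine mem_iUnion.2 ⟨m, h1, fun k => ?_⟩
    rw [← Function.iterate_add_apply, ← Function.iterate_add_apply]
    exact (hm _ (by omega)).le
  refine Countable.mono hsub (countable_iUnion fun n => ?_)
  obtain ⟨δ, hδ, h1⟩ : ∃ δ > 0, ∀ p q : X, dist p q < δ → ∀ k ≤ n,
      dist (g^[k] p) (g^[k] q) < c := by
    have h2 : ∀ k : ℕ, ∃ δ > 0, ∀ p q : X, dist p q < δ → dist (g^[k] p) (g^[k] q) < c := by
      intro k
      have hu : UniformContinuous (g^[k]) :=
        CompactSpace.uniformContinuous_of_continuous (g.continuous.iterate k)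
      rw [Metric.uniformContinuous_iff] at hu
      obtain ⟨δ, hδ, h3⟩ := hu c hc
      exact ⟨δ, hδ, fun p q h => h3 h⟩
    choose δ hδ h3 using h2
    refine ⟨(Finset.range (n + 1)).inf' ⟨0, by simp⟩ δ, ?_, fun p q h k hk => ?_⟩
    · rw [gt_iff_lt, Finset.lt_inf'_iff]
      exact fun i _ => hδ i
    · refine h3 k p q (lt_of_lt_of_le h (Finset.inf'_le _ ?_))
      rw [Finset.mem_range]
      omega
  refine countable_of_sep hδ fun p hp q hq hd => ?_
  refine expansive hg (fun k => ?_) fun k => ?_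
  · rcases le_total k n with hk | hk
    · exact (h1 p q hd k hk).le
    · obtain ⟨j, rfl⟩ := Nat.exists_eq_add_of_le' hk
      have a1 := hp.2 j
      have a2 := hq.2 j
      rw [← Function.iterate_add_apply, ← Function.iterate_add_apply] at a1 a2
      have := dist_triangle_left (g^[j + n] p) (g^[j + n] q) (g^[j + n] z)
      linarith
  · have a1 := hp.1 k
    have a2 := hq.1 k
    have := dist_triangle_left (g.symm^[k] p) (g.symm^[k] q) (g.symm^[k] x)
    linarith

/-- a path in a single leaf is continuous for the topology of the leaf -/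
theorem sm_path (hg : LP g c) (γ : C(I, X)) (h : ∀ t, WS g (γ 0) (γ t)) :
    Continuous (fun t => (⟨γ t⟩ : SM g)) := by
  have hc := hg.c_pos
  obtain ⟨br, δ, hδ, b1, b2, b3, b4⟩ := exists_br hg
  rw [continuous_iff_continuousAt]
  intro t₀
  rw [Metric.continuousAt_iff]
  intro ε hε
  obtain ⟨η, hη, e1⟩ := b2 (min (ε / 2) (c / 3)) (by positivity)
  set η' := min η δ with hη'
  have hη'0 : 0 < η' := lt_min hη hδ
  obtain ⟨s, hs, hs1⟩ := Metric.continuousAt_iff.1 (γ.continuous.continuousAt (x := t₀)) η' hη'0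
  refine ⟨s, hs, fun {t} ht => ?_⟩
  set J : Set I := ball t₀ s with hJ
  have hJc : IsPreconnected J := by
    have : J = Subtype.val ⁻¹' (ball (t₀ : ℝ) s) := rfl
    rw [this]
    have h1 : (Subtype.val ⁻¹' (ball (t₀ : ℝ) s) : Set I).OrdConnected := by
      rw [Real.ball_eq_Ioo]
      exact ordConnected_Ioo.preimage_mono (fun _ _ h => h)
    exact h1.isPreconnected
  have hd : ∀ r ∈ J, dist (γ r) (γ t₀) < η' := fun r hr => hs1 hr
  have hcont : ContinuousOn (fun r => br (γ r) (γ t₀)) J := by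
    rw [Metric.continuousOn_iff]
    intro r hr e he
    obtain ⟨η₂, hη₂, e2⟩ := b4 e he
    obtain ⟨s₂, hs₂, e3⟩ := Metric.continuousAt_iff.1 (γ.continuous.continuousAt (x := r)) η₂ hη₂
    refine ⟨s₂, hs₂, fun a ha had => ?_⟩
    exact e2 _ _ _ _ ((hd a ha).trans_le (min_le_right _ _)) ((hd r hr).trans_le (min_le_right _ _))
      (e3 had) (by rwa [dist_self])
  have hcount : ((fun r => br (γ r) (γ t₀)) '' J).Countable := by
    refine (countable_slice hg (γ t₀) (γ 0)).mono ?_
    rintro _ ⟨r, hr, rfl⟩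
    have h1 := b1 (γ r) (γ t₀) ((hd r hr).trans_le (min_le_right _ _))
    refine ⟨h1.2, (h r).trans (WS.of_SR (hg.cS _ _ (h1.1.mono (by linarith))))⟩
  have hsub := hcount.isTotallyDisconnected _ Subset.rfl (hJc.image _ hcont)
  have ht₀ : t₀ ∈ J := mem_ball_self hs
  have heq : br (γ t) (γ t₀) = br (γ t₀) (γ t₀) :=
    hsub (mem_image_of_mem _ ht) (mem_image_of_mem (fun r => br (γ r) (γ t₀)) ht₀)
  have hself : γ t₀ = br (γ t₀) (γ t₀) := by
    refine b3 _ _ _ (by rwa [dist_self]) ?_ ?_ <;>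
    · intro k
      rw [dist_self]
      positivity
  have h2 := (e1 (γ t) (γ t₀) ((hd t ht).trans_le (min_le_left _ _))).1
  rw [heq, ← hself] at h2
  have h3 : dist (⟨γ t⟩ : SM g) ⟨γ t₀⟩ ≤ ε / 2 :=
    (SM.dist_le _ _ (half_pos hε).le).2 (h2.mono (min_le_left _ _))
  linarith

/-- the homeomorphisms that map stable leaves onto stable leaves -/
def Fol (g : X ≃ₜ X) : Set (X ≃ₜ X) := {φ | ∀ y z, WS g y z ↔ WS g (φ y) (φ z)}

omit [CompactSpace X] in
theorem Fol.symm_mem {φ : X ≃ₜ X} (h : φ ∈ Fol g) : φ.symm ∈ Fol g := fun y z => by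
  rw [h (φ.symm y) (φ.symm z), φ.apply_symm_apply, φ.apply_symm_apply]

omit [CompactSpace X] in
theorem Fol.trans_mem {φ ψ : X ≃ₜ X} (h : φ ∈ Fol g) (h' : ψ ∈ Fol g) : φ.trans ψ ∈ Fol g :=
  fun y z => by
    rw [h y z, h' (φ y) (φ z)]
    rfl

/-- the image of a path in a leaf -/
theorem fol_path (hg : LP g c) {φ : X ≃ₜ X} (hφ : φ ∈ Fol g) (τ : C(I, SM g))
    (hτ : ∀ t, WS g (τ 0).val (τ t).val) : Continuous (fun t => (⟨φ (τ t).val⟩ : SM g)) := by
  have hc : Continuous fun t => φ (τ t).val :=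
    φ.continuous.comp (SM.val_continuous.comp τ.continuous)
  exact sm_path hg ⟨fun t => φ (τ t).val, hc⟩ fun t => (hφ _ _).1 (hτ t)

end Run7.h575.HF
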