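import Pool.Agent.Run7.h575.HF.A1
import Pool.Agent.Y330.N.A3

/-!
# Persistence of small unstable displacements along stable paths (helper575)
-/

set_option autoImplicit false

open Filter Topology Set Metric unitInterval

namespace Run7.h575.HF

open Pool.Agent.H721R2 Pool.Agent.H789R2.AN Pool.Agent.H789R2.GP Pool.Agent.TH304.K289
open Pool.Agent.Y330.G Pool.Agent.Y330.H Pool.Agent.Y330.N

variable {X : Type*} [MetricSpace X] [CompactSpace X] {g : X ≃ₜ X} {c : ℝ}

/-- displacements of level `-m` at `z` remain small along all stable paths from `z` -/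
def PM (g : X ≃ₜ X) (ρ : ℝ) (m : ℕ) (z : X) : Prop :=
  ∀ (τ : C(I, SM g)) (Δ : C(I, Pr g.symm)), (τ 0).val = z → Over τ Δ →
    SR g.symm ρ (g^[m] z) (g^[m] (Δ 0).y) → ∀ r, SR g.symm ρ (τ r).val (Δ r).y

omit [CompactSpace X] in
theorem sr_pull {ρ : ℝ} {m : ℕ} {x y : X} (h : SR g.symm ρ (g^[m] x) (g^[m] y)) :
    SR g.symm ρ x y := fun k => by
  have := h (k + m)
  rwa [Function.iterate_add_apply, Function.iterate_add_apply, iterL, iterL] at this

omit [CompactSpace X] in
theorem dist_pull (hg : LP g c) {ρ : ℝ} (hρ : ρ ≤ c) {m : ℕ} {x y : X}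
    (h : SR g.symm ρ (g^[m] x) (g^[m] y)) : dist x y ≤ c * (1 / 2) ^ m := by
  have := hg.cU _ _ (h.mono hρ) m
  rwa [iterL, iterL] at this

/-- a property that propagates over short distances to the left of `x` holds on `[0, x]` -/
theorem unit_chain {P : I → Prop} {x : I} {δ : ℝ} (hδ : 0 < δ) (h0 : P 0)
    (h : ∀ r r' : I, r ≤ x → r' ≤ x → dist r r' < δ → P r → P r') : ∀ r ≤ x, P r := by
  have key : ∀ n : ℕ, ∀ r : I, r ≤ x → (r : ℝ) ≤ n * (δ / 2) → P r := by
    intro n
    induction n with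
    | zero =>
      intro r _ hr
      have : r = 0 := by
        apply Subtype.ext
        show (r : ℝ) = 0
        have h1 := r.2.1
        simp only [Nat.cast_zero, zero_mul] at hr
        linarith
      rw [this]
      exact h0
    | succ n ih =>
      intro r hrx hr
      rcases le_or_gt (r : ℝ) (n * (δ / 2)) with h1 | h1
      · exact ih r hrx h1
      · have hr0 := r.2.1
        have hr1 := r.2.2
        set q : I := ⟨max 0 ((r : ℝ) - δ / 2), le_max_left _ _, max_le zero_le_one (by linarith)⟩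
          with hq
        have hqr : (q : ℝ) ≤ r := max_le hr0 (by linarith)
        have hqx : q ≤ x := le_trans (show q ≤ r from hqr) hrx
        refine h q r hqx hrx ?_ (ih q hqx ?_)
        · rw [Subtype.dist_eq, Real.dist_eq, abs_sub_comm, abs_of_nonneg (by linarith)]
          have : (r : ℝ) - δ / 2 ≤ q := le_max_right _ _
          linarith
        · refine max_le (by positivity) ?_
          push_cast at hr
          linarith
  intro r hr
  obtain ⟨n, hn⟩ := exists_nat_ge (1 / (δ / 2))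
  refine key n r hr (r.2.2.trans ?_)
  rw [div_le_iff₀ (half_pos hδ)] at hn
  exact hn

/-- **Persistence at a point.** -/
theorem local_pers (hg : LP g c) {c₁ : ℝ} (hc₁ : 0 < c₁) (hs' : Sl g.symm c c₁) {ρ : ℝ}
    (hρ0 : 0 < ρ) (hρ : 4 * ρ ≤ c) {z : X}
    (hz : ∀ ε > 0, ∃ δ > 0, ∀ y, dist z y < δ → ∀ η > 0, ∃ φ ∈ Fol g,
      (∀ w, dist w (φ w) ≤ ε) ∧ dist y (φ z) < η) : ∃ m : ℕ, PM g ρ m z := by
  have hc := hg.c_pos
  obtain ⟨br, δb, hδb, b1, b2, b3, b4⟩ := exists_br hg
  obtain ⟨η₁, hη₁, e1⟩ := b2 (ρ / 8) (by positivity)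
  have hεp : 0 < min η₁ δb / 2 := by positivity
  obtain ⟨δ, hδ, hφ⟩ := hz (min η₁ δb / 2) hεp
  obtain ⟨m, hm⟩ := pw (c := c) (δ := min δ δb / 2) (by positivity)
  refine ⟨m, fun τ Δ h0 hΔ hy => ?_⟩
  set y0 := (Δ 0).y with hy0
  have hy1 : SR g.symm ρ z y0 := sr_pull hy
  have hd1 : dist z y0 < min δ δb := by
    have h1 := dist_pull hg (by linarith) hy
    have h2 : 0 < min δ δb := lt_min hδ hδb
    linarith
  have hτws : ∀ t, WS g (τ 0).val (τ t).val := fun t => path_ws hg τ 0 t
  -- the property for all times up to `r`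
  set s : Set I := {r | ∀ r' ≤ r, SR g.symm ρ (τ r').val (Δ r').y} with hs
  have hΔc : Continuous Δ := Δ.continuous
  have hcl1 : IsClosed {r : I | SR g.symm ρ (τ r).val (Δ r).y} := by
    have : {r : I | SR g.symm ρ (τ r).val (Δ r).y} =
        ⋂ k : ℕ, {r | dist (g.symm^[k] (τ r).val) (g.symm^[k] (Δ r).y) ≤ ρ} := by
      ext r
      simp [SR]
    rw [this]
    refine isClosed_iInter fun k => isClosed_le ?_ continuous_const
    refine Continuous.dist ?_ ?_
    · exact (g.symm.continuous.iterate k).comp (SM.val_continuous.comp τ.continuous)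
    · obtain ⟨υ, hυ⟩ := side Δ
      have : (fun r => g.symm^[k] (Δ r).y) = fun r => g.symm^[k] (υ r).val :=
        funext fun r => by rw [hυ]
      rw [this]
      exact (g.symm.continuous.iterate k).comp (SM.val_continuous.comp υ.continuous)
  have hcl : IsClosed s := by
    refine isClosed_of_closure_subset fun r hr r' hr' => ?_
    rcases hr'.lt_or_eq with h1 | rfl
    · obtain ⟨q, hq1, hq2⟩ := mem_closure_iff.1 hr (Ioi r') isOpen_Ioi h1
      exact hq2 r' (le_of_lt hq1)
    · exact closure_minimal (fun q (hq : q ∈ s) => hq q le_rfl) hcl1 hr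
  have hmain : ∀ x ∈ s, ∀ r ≤ x, SR g.symm (ρ / 2) (τ r).val (Δ r).y := by
    intro x hx
    obtain ⟨j, η, hη, hop⟩ := open_lift hg hc₁ hs' hΔ (e := ρ / 8) (by positivity)
    obtain ⟨η₂, hη₂, q1⟩ := qs_SR_of_dist hg.symm η hη
    obtain ⟨η₃, hη₃, q2⟩ := b4 η₂ hη₂
    obtain ⟨φ, hφF, hφε, hφz⟩ := hφ y0 (hd1.trans_le (min_le_left _ _)) η₃ hη₃
    have hφd : ∀ w, dist (φ w) w < min η₁ δb := fun w => by
      rw [dist_comm]
      have := hφε w
      linarith
    set w : I → X := fun r => br (φ (τ r).val) (τ r).val with hw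
    have hw1 : ∀ r, SR g (ρ / 8) (φ (τ r).val) (w r) ∧ SR g.symm (ρ / 8) (τ r).val (w r) :=
      fun r => e1 _ _ ((hφd _).trans_le (min_le_left _ _))
    have hy0br : y0 = br y0 z := by
      refine b3 _ _ _ (by rw [dist_comm]; exact hd1.trans_le (min_le_right _ _)) ?_
        (hy1.mono (by linarith))
      intro k
      rw [dist_self]
      positivity
    have hw0 : w 0 = br (φ z) z := by rw [hw]; simp only [h0]
    have hdw : dist y0 (w 0) < η₂ := by
      rw [hw0]
      conv_lhs => rw [hy0br]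
      refine q2 _ _ _ _ (by rw [dist_comm]; exact hd1.trans_le (min_le_right _ _))
        ((hφd _).trans_le (min_le_right _ _)) hφz (by rwa [dist_self])
    have hsw : SR g.symm c y0 (w 0) := by
      have h1 := (hw1 0).2
      rw [h0] at h1
      exact (hy1.symm'.tr h1).mono (by linarith)
    obtain ⟨Δ', o1, o2, o3, -⟩ := hop (w 0) (q1 _ _ hsw hdw)
    -- the lift is the bracket
    obtain ⟨υ, hυ⟩ := side Δ'
    have hφτ := fol_path hg hφF τ hτws
    have hu1 : UniformContinuous υ := CompactSpace.uniformContinuous_of_continuous υ.continuous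
    have hu2 : UniformContinuous (fun t => (⟨φ (τ t).val⟩ : SM g)) :=
      CompactSpace.uniformContinuous_of_continuous hφτ
    rw [Metric.uniformContinuous_iff] at hu1 hu2
    obtain ⟨a₁, ha₁, u1⟩ := hu1 (ρ / 8) (by positivity)
    obtain ⟨a₂, ha₂, u2⟩ := hu2 (ρ / 8) (by positivity)
    have hbr : ∀ r ≤ x, (Δ' r).y = w r := by
      refine unit_chain (δ := min a₁ a₂) (lt_min ha₁ ha₂) o2 ?_
      intro r r' _ hr' hd hr
      apply expansive hg
      · have k1 : SR g (ρ / 8) (υ r').val (υ r).val :=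
          (SM.dist_le _ _ (by positivity)).1 (by
            rw [dist_comm]
            exact (u1 (hd.trans_le (min_le_left _ _))).le)
        have k2 : SR g (ρ / 8) (φ (τ r).val) (φ (τ r').val) :=
          (SM.dist_le (⟨φ (τ r).val⟩ : SM g) ⟨φ (τ r').val⟩ (by positivity)).1
            (u2 (hd.trans_le (min_le_right _ _))).le
        rw [hυ, hυ, hr] at k1
        exact (((k1.tr (hw1 r).1.symm').tr k2).tr (hw1 r').1).mono (by linarith)
      · have k1 := hx r' hr'
        exact (((o3 r').symm'.tr k1.symm').tr (hw1 r').2).mono (by linarith)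
    intro r hr
    have k1 := (hw1 r).2
    rw [← hbr r hr] at k1
    exact (k1.tr (o3 r).symm').mono (by linarith)
  have key : (1 : I) ∈ s := by
    refine IsClosed.mem_of_ge_of_forall_exists_gt (a := 0) (b := 1) (hcl.inter isClosed_Icc) ?_
      zero_le_one ?_
    · intro r' hr'
      have : r' = 0 := le_antisymm hr' unitInterval.nonneg'
      rw [this, h0]
      exact hy1
    · rintro x ⟨hx, -, hx1⟩
      have hb := hmain x hx
      obtain ⟨s₂, hs₂, h3⟩ := Metric.continuousAt_iff.1 (hΔc.continuousAt (x := x)) (ρ / 2)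
        (half_pos hρ0)
      have h4 : ∀ r, dist r x < s₂ → SR g.symm ρ (τ r).val (Δ r).y := by
        intro r hr k
        have h5 := ((Pr.dist_le _ _ (half_pos hρ0).le).1 (h3 hr).le).2.2 k
        have h6 := hb x le_rfl k
        rw [← hΔ x] at h6
        rw [← hΔ r]
        rw [abs_le] at h5
        linarith
      have hne : (𝓝[>] x).NeBot := nhdsGT_neBot_of_exists_gt ⟨1, hx1⟩
      have h5 : ∀ᶠ r in 𝓝[>] x, dist r x < s₂ :=
        mem_nhdsWithin_of_mem_nhds (Metric.ball_mem_nhds x hs₂)
      obtain ⟨y, hy1', hy2⟩ := (h5.and self_mem_nhdsWithin).exists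
      refine ⟨y, fun r' hr' => ?_, hy2, unitInterval.le_one'⟩
      rcases le_or_gt r' x with h6 | h6
      · exact hx r' h6
      · refine h4 r' (lt_of_le_of_lt ?_ hy1')
        rw [Subtype.dist_eq, Subtype.dist_eq, Real.dist_eq, Real.dist_eq]
        have h7 : (x : ℝ) < r' := h6
        have h8 : (r' : ℝ) ≤ y := hr'
        rw [abs_of_pos (by linarith), abs_of_pos (by linarith)]
        linarith
  intro r
  exact key r unitInterval.le_one'

end Run7.h575.HF
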