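import Mathlib

/-!
# Groups of homeomorphisms with an orbit which is not meagre (helper575)
-/

set_option autoImplicit false

open Filter Topology Set Metric

namespace Run7.h575.HF

variable {X : Type*} [MetricSpace X] [CompactSpace X]

/-- a homeomorphism and its inverse as a pair of maps -/
def hpair (φ : X ≃ₜ X) : C(X, X) × C(X, X) := (⟨φ, φ.continuous⟩, ⟨φ.symm, φ.symm.continuous⟩)

theorem hpair_dist {φ ψ : X ≃ₜ X} {e : ℝ} (h : dist (hpair φ) (hpair ψ) < e) (w : X) :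
    dist (φ.symm w) (ψ.symm w) ≤ e := by
  have h1 : dist (hpair φ).2 (hpair ψ).2 < e := lt_of_le_of_lt (le_max_right _ _) h
  exact (ContinuousMap.dist_apply_le_dist (f := (hpair φ).2) (g := (hpair ψ).2) w).trans h1.le

/-- A weak form of Effros' theorem: if the orbit of `z` is not meagre then all the points near `z` are
limits of images of `z` under elements close to the identity. -/
theorem micro {H : Set (X ≃ₜ X)} (hs : ∀ φ ∈ H, φ.symm ∈ H)
    (ht : ∀ φ ∈ H, ∀ ψ ∈ H, φ.trans ψ ∈ H) {z : X}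
    (hz : ¬ IsMeagre {y | ∃ φ ∈ H, φ z = y}) {ε : ℝ} (hε : 0 < ε) :
    ∃ δ > 0, ∀ y, dist z y < δ → ∀ η > 0, ∃ φ ∈ H, (∀ w, dist w (φ w) ≤ ε) ∧
      dist y (φ z) < η := by
  have hε2 : 0 < ε / 2 := half_pos hε
  obtain ⟨D, hDc, hDd⟩ := TopologicalSpace.exists_countable_dense (↥(hpair '' H))
  -- the pieces of the orbit
  set P : (↥(hpair '' H)) → Set X := fun d =>
    {y | ∃ φ ∈ H, dist (hpair φ) d.val < ε / 2 ∧ φ z = y} with hP
  have hcov : {y | ∃ φ ∈ H, φ z = y} ⊆ ⋃ d ∈ D, P d := by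
    rintro y ⟨φ, hφ, hy⟩
    obtain ⟨d, hd, hd2⟩ := hDd.exists_dist_lt (⟨hpair φ, φ, hφ, rfl⟩ : ↥(hpair '' H)) hε2
    exact mem_iUnion₂.2 ⟨d, hd, φ, hφ, hd2, hy⟩
  obtain ⟨d, hd⟩ : ∃ d, ¬ IsNowhereDense (P d) := by
    by_contra hcon
    push Not at hcon
    exact hz ((isMeagre_biUnion hDc fun d _ => (hcon d).isMeagre).mono hcov)
  obtain ⟨ψ, hψ, hψd⟩ := d.2
  -- elements close to the identity
  set U : Set (X ≃ₜ X) := {φ | φ ∈ H ∧ ∀ w, dist w (φ w) ≤ ε / 2} with hU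
  set O : Set X := {y | ∃ φ ∈ U, φ z = y} with hO
  have hsub : P d ⊆ ψ '' O := by
    rintro y ⟨φ, hφ, h1, rfl⟩
    refine ⟨ψ.symm (φ z), ⟨φ.trans ψ.symm, ⟨ht _ hφ _ (hs _ hψ), fun w => ?_⟩, rfl⟩,
      ψ.apply_symm_apply _⟩
    rw [← hψd] at h1
    have h2 := hpair_dist h1 (φ w)
    rw [φ.symm_apply_apply] at h2
    exact h2
  have hint : (interior (closure O)).Nonempty := by
    rw [nonempty_iff_ne_empty]
    intro he
    apply hd
    refine IsNowhereDense.mono hsub ?_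
    unfold IsNowhereDense
    rw [← ψ.image_closure, ← ψ.image_interior, he, image_empty]
  obtain ⟨q, hq⟩ := hint
  obtain ⟨q', hq', hq'O⟩ := mem_closure_iff.1 (interior_subset hq) _ isOpen_interior hq
  obtain ⟨φ₀, hφ₀, rfl⟩ := hq'O
  have hopen : IsOpen (φ₀ ⁻¹' (interior (closure O))) := isOpen_interior.preimage φ₀.continuous
  obtain ⟨δ, hδ, h1⟩ := Metric.isOpen_iff.1 hopen z hq'
  refine ⟨δ, hδ, fun y hy η hη => ?_⟩
  have hy' : φ₀ y ∈ closure O := interior_subset (h1 (by rwa [mem_ball, dist_comm]))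
  obtain ⟨η', hη', h2⟩ := Metric.continuousAt_iff.1 (φ₀.symm.continuous.continuousAt (x := φ₀ y)) η hη
  obtain ⟨_, ⟨φ₁, hφ₁, rfl⟩, h3⟩ := Metric.mem_closure_iff.1 hy' η' hη'
  refine ⟨φ₁.trans φ₀.symm, ht _ hφ₁.1 _ (hs _ hφ₀.1), fun w => ?_, ?_⟩
  · show dist w (φ₀.symm (φ₁ w)) ≤ ε
    have a1 := hφ₁.2 w
    have a2 := hφ₀.2 (φ₀.symm (φ₁ w))
    rw [φ₀.apply_symm_apply] at a2
    have := dist_triangle w (φ₁ w) (φ₀.symm (φ₁ w))
    rw [dist_comm (φ₁ w)] at this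
    linarith
  · show dist y (φ₀.symm (φ₁ z)) < η
    have h4 := h2 (x := φ₁ z) (by rwa [dist_comm])
    rw [φ₀.symm_apply_apply, dist_comm] at h4
    exact h4

end Run7.h575.HF
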