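import Pool.Agent.Run7.h575.HF.A2
import Pool.Agent.Run7.h575.HF.B1

/-!
# Persistence at one point gives persistence at all points (helper575)
-/

set_option autoImplicit false

open Filter Topology Set Metric unitInterval

namespace Run7.h575.HF

open Pool.Agent.H721R2 Pool.Agent.H789R2.AN Pool.Agent.H789R2.GP Pool.Agent.TH304.K289
open Pool.Agent.Y330.G Pool.Agent.Y330.H Pool.Agent.Y330.N

variable {X : Type*} [MetricSpace X] [CompactSpace X] {g : X ≃ₜ X} {c : ℝ}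

omit [CompactSpace X] in
theorem sr_down {ρ : ℝ} {m k : ℕ} {x y : X} (h : SR g.symm ρ (g^[m + k] x) (g^[m + k] y)) :
    SR g.symm ρ (g^[m] x) (g^[m] y) := by
  intro i
  have h5 := h (i + k)
  have e : ∀ z, g.symm^[i + k] (g^[m + k] z) = g.symm^[i] (g^[m] z) := fun z => by
    rw [Nat.add_comm m k, Function.iterate_add_apply, Function.iterate_add_apply g k m, iterL]
  rwa [e, e] at h5

theorem PM.mono {ρ : ℝ} {m m' : ℕ} {z : X} (h : PM g ρ m z) (hm : m ≤ m') : PM g ρ m' z := by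
  obtain ⟨k, rfl⟩ := Nat.exists_eq_add_of_le hm
  exact fun τ Δ h2 h3 h4 => h τ Δ h2 h3 (sr_down h4)

/-- small displacements of high level -/
theorem sr_small (hg : LP g c) {ρ η : ℝ} (hρ : ρ ≤ c) {m : ℕ} (hm : c * (1 / 2) ^ m ≤ η) {x y : X}
    (h : SR g.symm ρ (g^[m] x) (g^[m] y)) : SR g.symm η x y := by
  intro k
  have := hg.cU _ _ (h.mono hρ) (k + m)
  rw [Function.iterate_add_apply, Function.iterate_add_apply, iterL, iterL] at this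
  exact (this.trans (pw_anti hg.c_pos (by omega))).trans hm

/-- concatenation of strips -/
theorem strip_concat {υ τ : C(I, SM g)} {Γ Δ : C(I, Pr g.symm)}
    (hΓ : Over υ Γ) (hΔ : Over τ Δ) (h0 : (τ 0).val = (υ 0).val) (h1 : (Δ 0).y = (Γ 0).y) :
    ∃ (v : C(I, SM g)) (P : C(I, Pr g.symm)), Over v P ∧ (v 0).val = (υ 1).val ∧
      (P 0).y = (Γ 1).y ∧ ∀ r, ∃ r', (v r').val = (τ r).val ∧ (P r').y = (Δ r).y := by
  have e0 : Δ 0 = Γ 0 := Pr.ext (by rw [hΔ, hΓ, h0]) h1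
  let p : Path (Γ 1) (Γ 0) := ⟨⟨fun r => Γ (σ r), by fun_prop⟩, by simp, by simp⟩
  let q : Path (Γ 0) (Δ 1) := ⟨Δ, e0, rfl⟩
  let P : C(I, Pr g.symm) := (p.trans q).toContinuousMap
  have hP0 : P 0 = Γ 1 := (p.trans q).source
  obtain ⟨P', a1, a2⟩ := strip_swap (g := g.symm) P
  obtain ⟨w, hw⟩ := side (g := g) P'
  have hw' : ∀ r, (w r).val = (P r).x := fun r => by rw [hw, a2]
  refine ⟨w, P, fun r => (hw' r).symm, by rw [hw', hP0, hΓ], by rw [hP0], fun r => ?_⟩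
  obtain ⟨r', hr'⟩ : ∃ r', P r' = Δ r := by
    have h2 : Δ r ∈ range (p.trans q) := by
      rw [Path.trans_range]
      exact Or.inr ⟨r, rfl⟩
    exact h2
  exact ⟨r', by rw [hw', hr', hΔ], by rw [hr']⟩

/-- transport of persistence along a stable path -/
theorem pm_concat {ρ : ℝ} {m : ℕ} {υ τ : C(I, SM g)} {Γ Δ : C(I, Pr g.symm)}
    (hq : PM g ρ m (υ 1).val) (hΓ : Over υ Γ) (hΔ : Over τ Δ) (h0 : (τ 0).val = (υ 0).val)
    (h1 : (Δ 0).y = (Γ 0).y) (hs : SR g.symm ρ (g^[m] (υ 1).val) (g^[m] (Γ 1).y)) (r : I) :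
    SR g.symm ρ (τ r).val (Δ r).y := by
  obtain ⟨v, P, h2, h3, h4, h5⟩ := strip_concat hΓ hΔ h0 h1
  obtain ⟨r', h6, h7⟩ := h5 r
  have h8 := hq v P h3 h2 (by rw [h4]; exact hs) r'
  rwa [h6, h7] at h8

/-- the strip back to a point with persistence exists -/
theorem pm_lift (hg : LP g c) (hX : ULC X) {c₁ : ℝ} (hc₁ : 0 < c₁) (hs : Sl g c c₁) {ρ : ℝ}
    (hρ : ρ ≤ c) {m : ℕ} {z : X} (hz : PM g ρ m z) (v : C(I, SM g))
    (h0 : SR g.symm ρ (g^[m] z) (g^[m] (v 0).val)) : ∃ Ξ : C(I, Pr g.symm), Over v Ξ ∧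
      (Ξ 0).y = z ∧ ∀ r, SR g.symm ρ (v r).val (Ξ r).y := by
  have hw : WS g.symm (v 0).val z :=
    (WS.of_SR (hg.cU _ _ ((sr_pull h0).mono hρ))).symm'
  -- the bound along any strip
  have hb : ∀ (s : I) (Δ₁ : C(I, Pr g.symm)), Over (stop v s) Δ₁ → (Δ₁ 0).y = z →
      ∀ r, SR g.symm ρ (stop v s r).val (Δ₁ r).y := by
    intro s Δ₁ a1 a2 r
    obtain ⟨ζ, hζ⟩ := side Δ₁
    obtain ⟨Δ', b1, b2⟩ := over_swap a1 hζ
    have h1 := hz ζ Δ' (by rw [hζ, a2]) b1 (by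
      rw [b2, stop_apply, min_eq_left (unitInterval.nonneg' : 0 ≤ s)]
      exact h0) r
    rw [hζ, b2] at h1
    exact h1.symm'
  obtain ⟨δ, hδ, hc⟩ := cont_lift hg hX hc₁ hs hρ v 0
  have key : ∀ s ≤ (1 : I), ∃ p, Lft g (stop v s) z p := by
    refine unit_chain hδ ?_ ?_
    · refine ⟨z, ContinuousMap.const I ⟨(v 0).val, z, hw⟩, fun r => ?_, rfl, rfl⟩
      show (v 0).val = (stop v 0 r).val
      rw [stop_apply, min_eq_right (unitInterval.nonneg' : 0 ≤ r)]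
    · rintro r r' - - hd ⟨p, hp⟩
      rcases le_total r r' with h | h
      · refine hc r r' h hd z p hp ?_
        obtain ⟨Δ₁, a1, a2, a3⟩ := hp
        have h1 := hb r Δ₁ a1 a2 1
        rw [stop_apply, min_eq_right (unitInterval.le_one' : r ≤ 1), a3] at h1
        exact lz_zero.2 h1
      · exact hp.stop_le h
  obtain ⟨p, hp⟩ := key 1 le_rfl
  obtain ⟨Ξ, a1, a2, a3⟩ := hp
  have h1 := hb 1 Ξ a1 a2
  rw [stop_one] at a1 h1
  exact ⟨Ξ, a1, a2, h1⟩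

/-- persistence is an open condition -/
theorem pm_open (hg : LP g c) (hX : ULC X) {c₁ : ℝ} (hc₁ : 0 < c₁) (hs : Sl g c c₁)
    (hs' : Sl g.symm c c₁) {ρ : ℝ} (hρ0 : 0 < ρ) (hρ : 2 * ρ ≤ c) {m : ℕ} {z : X}
    (hz : PM g ρ m z) : ∃ δ > 0, ∃ m' : ℕ, ∀ x, dist x z < δ → PM g (2 * ρ) m' x := by
  have hc := hg.c_pos
  obtain ⟨br, δb, hδb, b1, b2, b3, b4⟩ := exists_br hg
  have hcm : ∀ x, g (g.symm x) = g.symm (g x) := fun x => by
    rw [g.symm_apply_apply, g.apply_symm_apply]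
  obtain ⟨e, he, u1⟩ := uc_map_iter (g := g.symm) (φ := g) hcm m (ρ / 2) (half_pos hρ0)
  obtain ⟨η, hη, hsl⟩ := hs'.tr e he 0
  obtain ⟨m', hm'⟩ := pw (c := c) hη
  obtain ⟨η₃, hη₃, hlp⟩ := leaf_path hg hX c₁ hc₁
  obtain ⟨δ, hδ, e1⟩ := b2 (min e η₃) (lt_min he hη₃)
  refine ⟨δ, hδ, m', fun x hx τ Δ h0 hΔ hy r => ?_⟩
  set w := br x z with hw0
  have hw := e1 x z hx
  rw [← hw0] at hw
  obtain ⟨κ, κ0, κ1, κt⟩ := hlp ⟨x⟩ ⟨w⟩
    ((SM.dist_le _ _ hη₃.le).2 (hw.1.mono (min_le_right _ _)))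
  have hy1 : SR g.symm η x (Δ 0).y := sr_small hg hρ hm' hy
  obtain ⟨Γ₀, g1, g2, g3, -⟩ := hsl κ (Δ 0).y (by rw [κ0]; exact hy1) (fun t => by
    rw [κ0]
    exact (SM.dist_le _ _ hc₁.le).1 (κt t))
  obtain ⟨v, P, v1, v2, v3, v4⟩ := strip_concat (fun r => g2 r) hΔ (by rw [h0, κ0]) g1.symm
  have hvw : (v 0).val = w := by rw [v2, κ1]
  have hzw : SR g.symm (ρ / 2) (g^[m] z) (g^[m] w) := u1 _ _ (hw.2.mono (min_le_left _ _))
  obtain ⟨Ξ, x1, x2, x3⟩ := pm_lift hg hX hc₁ hs (by linarith) hz v (by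
    rw [hvw]
    exact hzw.mono (by linarith))
  obtain ⟨ζ, hζ⟩ := side Ξ
  obtain ⟨Ξ', y1, y2⟩ := over_swap x1 hζ
  obtain ⟨Q, q1, q2⟩ := over_comp y1 (fun r => (y2 r).symm) v1
  have h5 : ∀ r, SR g.symm ρ (ζ r).val (Q r).y := hz ζ Q (by rw [hζ, x2]) q1 (by
    rw [q2, v3]
    have h6 := u1 _ _ (g3 1)
    rw [κ1] at h6
    exact (hzw.tr h6).mono (by linarith))
  obtain ⟨r', h6, h7⟩ := v4 r
  have h8 := h5 r'
  rw [q2, hζ, h7] at h8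
  have h9 := x3 r'
  rw [h6] at h9
  exact (h9.tr h8).mono (by linarith)

/-- persistence on an open set gives persistence at the points whose leaves meet it -/
theorem pm_point (hg : LP g c) (hX : ULC X) {c₁ : ℝ} (hc₁ : 0 < c₁) (hs' : Sl g.symm c c₁)
    {ρ : ℝ} (hρ0 : 0 < ρ) (hρ : ρ ≤ c) {m : ℕ} {O : Set X} (hO : IsOpen O)
    (hOm : ∀ z ∈ O, PM g ρ m z) {x : X} (hd : ∃ p ∈ O, WS g x p) :
    ∃ δ > 0, ∃ m' : ℕ, ∀ x', dist x' x < δ → PM g ρ m' x' := by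
  have hc := hg.c_pos
  have hcm : ∀ x, g (g.symm x) = g.symm (g x) := fun x => by
    rw [g.symm_apply_apply, g.apply_symm_apply]
  obtain ⟨br, δb, hδb, b1, b2, b3, b4⟩ := exists_br hg
  obtain ⟨e, he, u1⟩ := uc_map_iter (g := g.symm) (φ := g) hcm m ρ hρ0
  obtain ⟨p, hp, hxp⟩ := hd
  obtain ⟨υ, υ0, υ1⟩ := leaf_conn hg hX x p hxp
  obtain ⟨ε, hε, hball⟩ := Metric.isOpen_iff.1 hO p hp
  obtain ⟨Δ₀, d1, d2⟩ := strip_const' υ
  obtain ⟨j, η₂, hη₂, hop⟩ := open_lift hg hc₁ hs' (Δ := Δ₀) d1 (e := ε / 2) (half_pos hε)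
  obtain ⟨η₃, hη₃, hlp⟩ := leaf_path hg hX c₁ hc₁
  obtain ⟨b, hb⟩ := pw (c := c) (show 0 < c₁ / 2 by positivity)
  -- transport along the paths of level `j + b`
  obtain ⟨η₄, hη₄, hsl⟩ := hs'.tr e he (j + b)
  obtain ⟨η₅, hη₅, hsl₅⟩ := hs'.tr η₄ hη₄ 0
  obtain ⟨m', hm'⟩ := pw (c := c) hη₅
  obtain ⟨δ, hδ, e1⟩ := b2 (min η₂ η₃) (by positivity)
  refine ⟨δ, hδ, m', fun x' hx' τ Δ h0 hΔ hy r => ?_⟩
  set w := br x' x with hw0
  have hw := e1 x' x hx'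
  rw [← hw0] at hw
  obtain ⟨κ, κ0, κ1, κt⟩ := hlp ⟨x'⟩ ⟨w⟩
    ((SM.dist_le _ _ hη₃.le).2 (hw.1.mono (min_le_right _ _)))
  obtain ⟨Δ', o1, o2, o3, o4⟩ := hop w (by
    rw [d2, υ0]
    exact hw.2.mono (min_le_left _ _))
  obtain ⟨υ', hυ'⟩ := side Δ'
  have hpO : (υ' 1).val ∈ O := by
    apply hball
    rw [mem_ball, hυ', dist_comm]
    have h6 := o3 1 0
    rw [d2, υ1] at h6
    have h7 : dist p (Δ' 1).y ≤ ε / 2 := h6
    linarith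
  have hy1 : SR g.symm η₅ x' (Δ 0).y := sr_small hg hρ hm' hy
  obtain ⟨Γ₀, g1, g2, g3, -⟩ := hsl₅ κ (Δ 0).y (by rw [κ0]; exact hy1) (fun t => by
    rw [κ0]
    exact (SM.dist_le _ _ hc₁.le).1 (κt t))
  have hlev : ∀ t, SR g c₁ (g^[j + b] (υ' 0).val) (g^[j + b] (υ' t).val) := by
    intro t k
    rw [hυ', hυ', o2]
    have h6 := hg.cS _ _ ((o4 t).mono (show c / 3 ≤ c by linarith)) (k + b)
    rw [← Function.iterate_add_apply, ← Function.iterate_add_apply] at h6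
    rw [← Function.iterate_add_apply, ← Function.iterate_add_apply,
      show k + (j + b) = k + b + j by omega]
    exact (h6.trans (pw_anti hc (by omega))).trans (hb.trans (by linarith))
  obtain ⟨Γ₁, f1, f2, f3, -⟩ := hsl υ' (Γ₀ 1).y (by
    have h6 := g3 1
    rw [κ1] at h6
    rw [hυ', o2]
    exact h6) hlev
  obtain ⟨v, P, v1, v2, v3, v4⟩ := strip_concat (fun r => g2 r) hΔ (by rw [h0, κ0]) g1.symm
  obtain ⟨r', h6, h7⟩ := v4 r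
  have h5 := pm_concat (Γ := Γ₁) (Δ := P) (τ := v) (hOm _ hpO) (fun r => f2 r) v1
    (by rw [v2, κ1, hυ', o2]) (by rw [v3, f1]) (u1 _ _ (f3 1)) r'
  rwa [h6, h7] at h5

/-- local persistence gives uniform persistence -/
theorem pm_unif {ρ : ℝ} (h : ∀ x : X, ∃ δ > 0, ∃ m' : ℕ, ∀ x', dist x' x < δ → PM g ρ m' x') :
    ∃ m' : ℕ, ∀ x, PM g ρ m' x := by
  choose δ hδ mm hmm using h
  obtain ⟨F, hF⟩ := (isCompact_univ (X := X)).elim_nhds_subcover (fun x => ball x (δ x))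
    (fun x _ => ball_mem_nhds x (hδ x))
  refine ⟨F.sup mm, fun x => ?_⟩
  obtain ⟨x₀, hx₀, hx⟩ := Set.mem_iUnion₂.1 (hF.2 (Set.mem_univ x))
  exact (hmm x₀ x hx).mono (Finset.le_sup (f := mm) hx₀)

/-- persistence everywhere gives uniformly bounded holonomies -/
theorem bound_of_pm {ρ : ℝ} {m : ℕ} (h : ∀ x, PM g ρ m x) : ∀ (τ : C(I, SM g)) (y p : X) (i : ℤ),
    Lz g ρ i (τ 0).val y → Lft g τ y p → Lz g ρ (i + m) (τ 1).val p := by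
  rintro τ y p i h1 ⟨Δ, a1, a2, a3⟩
  obtain ⟨Δ', b1, b2⟩ := over_shift (-(i + (m : ℤ))) a1
  have h2 := h _ (zpath (-(i + (m : ℤ))) τ) Δ' rfl b1 (by
    rw [b2, a2, zpath_apply, ← zp_nat, ← zp_nat, ← zp_add, ← zp_add,
      show (m : ℤ) + -(i + (m : ℤ)) = -i by ring]
    exact lz_iff.1 h1) 1
  rw [b2, zpath_apply, a3] at h2
  exact lz_iff.2 h2

/-- **One point with persistence, dense leaves.** -/
theorem bound_of_point (hg : LP g c) (hX : ULC X) {c₁ : ℝ} (hc₁ : 0 < c₁) (hs : Sl g c c₁)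
    (hs' : Sl g.symm c c₁) {ρ : ℝ} (hρ0 : 0 < ρ) (hρ : 2 * ρ ≤ c)
    (hd : ∀ x, Dense {y | WS g x y}) {m : ℕ} {z : X} (hz : PM g ρ m z) :
    ∃ K : ℕ, ∀ (τ : C(I, SM g)) (y p : X) (i : ℤ),
      Lz g (2 * ρ) i (τ 0).val y → Lft g τ y p → Lz g (2 * ρ) (i + K) (τ 1).val p := by
  obtain ⟨δ, hδ, m', hO⟩ := pm_open hg hX hc₁ hs hs' hρ0 hρ hz
  obtain ⟨K, hK⟩ := pm_unif fun x => pm_point hg hX hc₁ hs' (show 0 < 2 * ρ by linarith) hρ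
    (isOpen_ball (x := z) (ε := δ)) (fun z' hz' => hO z' hz') (x := x) (by
      obtain ⟨p, hp1, hp2⟩ := (hd x).inter_open_nonempty _ (isOpen_ball (x := z) (ε := δ))
        ⟨z, mem_ball_self hδ⟩
      exact ⟨p, hp1, hp2⟩)
  exact ⟨K, bound_of_pm hK⟩

/-- **Persistence at all points.** -/
theorem bound_of_all (hg : LP g c) (hX : ULC X) {c₁ : ℝ} (hc₁ : 0 < c₁) (hs : Sl g c c₁)
    (hs' : Sl g.symm c c₁) {ρ : ℝ} (hρ0 : 0 < ρ) (hρ : 2 * ρ ≤ c)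
    (h : ∀ z, ∃ m, PM g ρ m z) :
    ∃ K : ℕ, ∀ (τ : C(I, SM g)) (y p : X) (i : ℤ),
      Lz g (2 * ρ) i (τ 0).val y → Lft g τ y p → Lz g (2 * ρ) (i + K) (τ 1).val p := by
  obtain ⟨K, hK⟩ := pm_unif fun x => (h x).elim fun m hm => pm_open hg hX hc₁ hs hs' hρ0 hρ hm
  exact ⟨K, bound_of_pm hK⟩

/-- **One orbit which is not meagre.** -/
theorem pm_of_orbit (hg : LP g c) {c₁ : ℝ} (hc₁ : 0 < c₁) (hs' : Sl g.symm c c₁)
    {ρ : ℝ} (hρ0 : 0 < ρ) (hρ : 4 * ρ ≤ c) {z : X}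
    (hz : ¬ IsMeagre {y | ∃ φ ∈ Fol g, φ z = y}) : ∃ m, PM g ρ m z :=
  local_pers hg hc₁ hs' hρ0 hρ fun _ hε =>
    micro (H := Fol g) (fun _ h => Fol.symm_mem h) (fun _ h _ h' => Fol.trans_mem h h') hz hε

end Run7.h575.HF
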