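import Pool.Agent.Run7.h575.HF.A3
import Pool.Agent.Y330.N.B6
import Pool.Agent.Run7.h934.AD.LeafMan

/-!
# Stable points and homogeneous foliations: hyperbolic homeomorphisms (helper575)
-/

set_option autoImplicit false
set_option linter.unusedSectionVars false

open Filter Topology Set Metric unitInterval

namespace Run7.h575.HF

open Pool.Agent.H721R2 Pool.Agent.H789R2.AN Pool.Agent.H789R2.GP Pool.Agent.TH304.K289
open Pool.Agent.TH289 Pool.Agent.TH289.K Pool.Agent.TH289.L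
open Pool.Agent.Y330.G Pool.Agent.Y330.H Pool.Agent.Y330.N
open Pool.Agent.W740.TU (anosov_symm transitive_symm)
open Pool.Agent.Run7.h934.AD (dense_leaf Lf_iter)

/-- The point `x` is stable for the stable holonomies, with final level `j`: for some `i`, the
points of the unstable leaf of `x` of level at most `i` are moved by the stable holonomies along all
the stable paths that start at `x` to points of level at most `j`. -/
def StableAt {M : Type*} [TopologicalSpace M] (f : M ≃ₜ M) (𝒰 : Set (M × M)) (j : ℤ) (x : M) :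
    Prop :=
  ∃ i : ℤ, ∀ α β : C(I, M), α 0 = x → StablePath f α → StablePath f β → UnstablyRelated f α β →
    ZLevel f 𝒰 i (α 0) (β 0) → ZLevel f 𝒰 j (α 1) (β 1)

section abs

variable {X : Type*} [MetricSpace X] [CompactSpace X] {f : X ≃ₜ X} {c : ℝ}

theorem stable_shift {𝒰 : Set (X × X)} {j : ℤ} {x : X} (h : StableAt f 𝒰 j x) (n : ℤ) :
    StableAt f 𝒰 (j + n) ((f ^ n) x) := by
  obtain ⟨i, hi⟩ := h
  refine ⟨i + n, fun α β h0 hα hβ hαβ hl => ?_⟩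
  obtain ⟨α', a1, a2⟩ := move_path (-n) hα
  obtain ⟨β', b1, b2⟩ := move_path (-n) hβ
  have h1 := hi α' β' (by rw [a1, h0, zp_cancel']) a2 b2 (move_rel (-n) hαβ a1 b1) (by
    rw [a1, b1, ZLevel.shift, sub_neg_eq_add]
    exact hl)
  rwa [a1, b1, ZLevel.shift, sub_neg_eq_add] at h1

theorem stable_of_bounded {𝒰 : Set (X × X)} (h : BoundedHolonomy f 𝒰) (j : ℤ) (x : X) :
    StableAt f 𝒰 j x := by
  obtain ⟨k, hk⟩ := h
  refine ⟨j - k, fun α β _ hα hβ hαβ hl => ?_⟩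
  have := hk α β hα hβ hαβ _ hl
  rwa [sub_add_cancel] at this

theorem pm_of_stable {N : ℕ} (hN : 1 ≤ N) (hg : LP (iterHomeo f N) c)
    {𝒰 : Set (X × X)} (hc : ∀ p ∈ 𝒰, dist p.1 p.2 ≤ c) {r : ℝ}
    (hr : ∀ ρ ≤ r, ∀ (i : ℤ) (x y : X), Lz (iterHomeo f N) ρ i x y → ZLevel f 𝒰 (N * i) x y)
    {ρ : ℝ} (hρr : ρ ≤ r) {A : ℕ} (hA : c * (1 / 2) ^ A ≤ ρ) {x : X}
    (h : StableAt f 𝒰 (-((N : ℤ) * (A + 1))) x) : ∃ m, PM (iterHomeo f N) ρ m x := by
  have hN' : (0 : ℤ) < N := by omega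
  obtain ⟨i, hi⟩ := h
  refine ⟨i.natAbs, fun τ Δ h0 hΔ hs s => ?_⟩
  obtain ⟨Δ₀, d1, d2⟩ := strip_const' (stop τ s)
  let Δ₁ : C(I, Pr (iterHomeo f N).symm) := ⟨fun r => Δ (min r s), by fun_prop⟩
  have hΔ₁ : Over (stop τ s) Δ₁ := fun r => hΔ (min r s)
  obtain ⟨α, a1, a2⟩ := path_of_strip hN hg Δ₀
  obtain ⟨β, b1, b2⟩ := path_of_strip hN hg Δ₁
  have e0 : (stop τ s 0).val = x := by
    rw [stop_apply, min_eq_left (unitInterval.nonneg' : 0 ≤ s), h0]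
  have e1 : (stop τ s 1).val = (τ s).val := by
    rw [stop_apply, min_eq_right (unitInterval.le_one' : s ≤ 1)]
  have e2 : (Δ₁ 0).y = (Δ 0).y := by
    show (Δ (min 0 s)).y = _
    rw [min_eq_left (unitInterval.nonneg' : 0 ≤ s)]
  have e3 : (Δ₁ 1).y = (Δ s).y := by
    show (Δ (min 1 s)).y = _
    rw [min_eq_right (unitInterval.le_one' : s ≤ 1)]
  have hl : Lz (iterHomeo f N) ρ (-(i.natAbs : ℤ)) x (Δ 0).y := by
    rw [lz_iff, neg_neg, zp_nat, zp_nat]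
    exact hs
  have h1 := hi α β (by rw [a1, d2, e0]) a2 b2 (related_of_strip hN d1 hΔ₁ a1 b1) (by
    rw [a1, b1, d2, e0, e2]
    intro n hn
    refine hr ρ hρr _ _ _ hl n (le_trans ?_ hn)
    have h3 : -(i.natAbs : ℤ) ≤ i := by omega
    have h4 : (N : ℤ) * -(i.natAbs : ℤ) ≤ 1 * -(i.natAbs : ℤ) :=
      mul_le_mul_of_nonpos_right (by omega) (by omega)
    linarith)
  rw [a1, b1, d2, e1, e3] at h1
  have h2 := lz_of_zlevel hN hg hc hA h1
  have h3 : (A : ℤ) + (-((N : ℤ) * (A + 1)) / N + 1) = 0 := by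
    rw [← mul_neg, Int.mul_ediv_cancel_left _ hN'.ne']
    ring
  rw [h3] at h2
  exact lz_zero.1 h2

theorem abs_all {N : ℕ} (hN : 1 ≤ N) (hLP : LP (iterHomeo f N) c) (hX : ULC X)
    {𝒰 : Set (X × X)} (h𝒰 : 𝒰 ∈ 𝓝ˢ (diagonal X)) (hc : ∀ p ∈ 𝒰, dist p.1 p.2 ≤ c)
    {j : ℤ} (h : ∀ x, StableAt f 𝒰 j x) : BoundedHolonomy f 𝒰 := by
  have hc0 := hLP.c_pos
  obtain ⟨c₁, hc₁, hs⟩ := exists_sl hLP
  obtain ⟨c₂, hc₂, hs'⟩ := exists_sl hLP.symm
  obtain ⟨r, hr, h2⟩ := zlevel_of_lz f N hN h𝒰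
  have hρ0 : 0 < min (r / 2) (c / 2) := by positivity
  have hρ1 : 2 * min (r / 2) (c / 2) ≤ c := by linarith [min_le_right (r / 2) (c / 2)]
  have hρ2 : 2 * min (r / 2) (c / 2) ≤ r := by linarith [min_le_left (r / 2) (c / 2)]
  obtain ⟨A, hA⟩ := pw (c := c) hρ0
  obtain ⟨K, hK⟩ := bound_of_all hLP hX (lt_min hc₁ hc₂) (hs.mono (min_le_left _ _))
    (hs'.mono (min_le_right _ _)) hρ0 hρ1 fun x => by
      refine pm_of_stable hN hLP hc h2 (by linarith) hA ?_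
      have h3 := stable_shift (h ((f ^ (-(-((N : ℤ) * (A + 1)) - j))) x))
        (-((N : ℤ) * (A + 1)) - j)
      rwa [zp_cancel, add_sub_cancel] at h3
  exact bhol_of hN hLP hc h2 (by linarith) hρ2 hK

variable {E : Type*} [NormedAddCommGroup E] [NormedSpace ℝ E]

theorem leaves_dense [ConnectedSpace X] (S : HypSys X E) (f : X ≃ₜ X) {N : ℕ} (hN : 1 ≤ N)
    (hg : S.g = iterHomeo f N) (hT : TopTransitive f) (x : X) :
    Dense {y | WS (iterHomeo f N) x y} := by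
  have h1 := dense_leaf S f hN hg hT x
  rw [Lf_iter hN hg, hg] at h1
  exact h1

theorem abs_point [ConnectedSpace X] (S : HypSys X E) (f : X ≃ₜ X) {N : ℕ} (hN : 1 ≤ N)
    (hg : S.g = iterHomeo f N) {c : ℝ} (hLP : LP (iterHomeo f N) c) (hX : ULC X)
    {𝒰 : Set (X × X)} (h𝒰 : 𝒰 ∈ 𝓝ˢ (diagonal X)) (hc : ∀ p ∈ 𝒰, dist p.1 p.2 ≤ c)
    (hT : TopTransitive f) {x : X} {j : ℤ} (h : StableAt f 𝒰 j x) : BoundedHolonomy f 𝒰 := by
  have hc0 := hLP.c_pos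
  obtain ⟨c₁, hc₁, hs⟩ := exists_sl hLP
  obtain ⟨c₂, hc₂, hs'⟩ := exists_sl hLP.symm
  obtain ⟨r, hr, h2⟩ := zlevel_of_lz f N hN h𝒰
  have hρ0 : 0 < min (r / 2) (c / 2) := by positivity
  have hρ1 : 2 * min (r / 2) (c / 2) ≤ c := by linarith [min_le_right (r / 2) (c / 2)]
  have hρ2 : 2 * min (r / 2) (c / 2) ≤ r := by linarith [min_le_left (r / 2) (c / 2)]
  obtain ⟨A, hA⟩ := pw (c := c) hρ0
  have h3 := stable_shift h (-((N : ℤ) * (A + 1)) - j)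
  rw [add_sub_cancel] at h3
  obtain ⟨m, hm⟩ := pm_of_stable hN hLP hc h2 (by linarith) hA h3
  obtain ⟨K, hK⟩ := bound_of_point hLP hX (lt_min hc₁ hc₂) (hs.mono (min_le_left _ _))
    (hs'.mono (min_le_right _ _)) hρ0 hρ1 (leaves_dense S f hN hg hT) hm
  exact bhol_of hN hLP hc h2 (by linarith) hρ2 hK

theorem fol_iter (f : X ≃ₜ X) {N : ℕ} (hN : 1 ≤ N) : Fol (iterHomeo f N) = Fol f := by
  ext φ
  have h : ∀ y z, WS (iterHomeo f N) y z ↔ WS f y z := fun y z => WS_iter_iff f hN y z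
  show (∀ y z, WS (iterHomeo f N) y z ↔ WS (iterHomeo f N) (φ y) (φ z)) ↔ _
  simp only [h]
  rfl

end abs

end Run7.h575.HF
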