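import Pool.Agent.Run7.h575.HF.A6

/-!
# Anosov diffeomorphisms with a stable point or a homogeneous foliation: manifolds (helper575)
-/

set_option autoImplicit false
set_option linter.unusedSectionVars false

open Filter Topology Set Metric
open scoped Manifold ContDiff Pointwise

namespace Run7.h575.HF

open Pool.Agent.H721R2 Pool.Agent.H789R2.AN Pool.Agent.H789R2.GP Pool.Agent.TH304.K289
open Pool.Agent.TH289 Pool.Agent.TH289.K Pool.Agent.TH289.L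
open Pool.Agent.Y330.G Pool.Agent.Y330.H Pool.Agent.Y330.N
open Pool.Agent.W740.TU (anosov_symm transitive_symm)
open Pool.Agent.Run7.h934.AD (stL stL_eq)

/-- the orbit of `z` under the homeomorphisms which map leaves onto leaves -/
def FOrb {M : Type*} [TopologicalSpace M] (f : M → M) (z : M) : Set M :=
  {y | ∃ φ : M ≃ₜ M, (∀ a b, b ∈ stL f a ↔ φ b ∈ stL f (φ a)) ∧ φ z = y}

/-- nonempty closed invariant union of stable leaves -/
def Satur {M : Type*} [TopologicalSpace M] (f : M → M) (R : Set M) : Prop :=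
  IsClosed R ∧ R.Nonempty ∧ (∀ x, f x ∈ R ↔ x ∈ R) ∧ ∀ x ∈ R, stL f x ⊆ R

/-- minimal such set -/
def MinSatur {M : Type*} [TopologicalSpace M] (f : M → M) (R : Set M) : Prop :=
  Satur f R ∧ ∀ R', Satur f R' → R' ⊆ R → R' = R

section metric

variable {X : Type*} [MetricSpace X] [CompactSpace X]

theorem satur_iff (f : X ≃ₜ X) (R : Set X) : Satur f R ↔ IsAtt f.symm R := by
  have hL : ∀ x, stL f x = {y | WS f x y} := fun x => stL_eq f x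
  constructor
  · rintro ⟨h1, h2, h3, h4⟩
    refine ⟨h1, h2, fun x => ?_, fun x hx y hxy => h4 x hx ?_⟩
    · rw [← h3 (f.symm x), f.apply_symm_apply]
    · rw [hL]
      exact hxy
  · intro h
    refine ⟨h.closed, h.nonempty, fun x => ?_, fun x hx y hxy => ?_⟩
    · rw [← h.inv (f x), f.symm_apply_apply]
    · rw [hL] at hxy
      exact h.sat x hx y hxy

theorem minSatur_iff (f : X ≃ₜ X) (R : Set X) : MinSatur f R ↔ MinAtt f.symm R := by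
  constructor
  · rintro ⟨h1, h2⟩
    exact ⟨(satur_iff f R).1 h1, fun B hB hBR => (h2 B ((satur_iff f B).2 hB) hBR).symm.subset⟩
  · rintro ⟨h1, h2⟩
    exact ⟨(satur_iff f R).2 h1, fun B hB hBR =>
      hBR.antisymm (h2 B ((satur_iff f B).1 hB) hBR)⟩

theorem exists_minSatur [Nonempty X] (f : X ≃ₜ X) : ∃ R, MinSatur f R := by
  obtain ⟨R, -, hR⟩ := exists_minAtt (g := f.symm) (A := univ)
    ⟨isClosed_univ, univ_nonempty, fun _ => by simp, fun _ _ _ _ => mem_univ _⟩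
  exact ⟨R, (minSatur_iff f R).2 hR⟩

end metric

section manifold

variable {E : Type*} [NormedAddCommGroup E] [NormedSpace ℝ E] [FiniteDimensional ℝ E]
  {M : Type*} [TopologicalSpace M] [T2Space M] [CompactSpace M] [ConnectedSpace M]
  [ChartedSpace E M] [IsManifold 𝓘(ℝ, E) ∞ M]

/-- the orbit of some point which is important for the dynamics is not meagre -/
def GoodOrbit {M : Type*} [TopologicalSpace M] (f : M → M) (g : M → M) : Prop :=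
  (∀ z, ¬ IsMeagre (FOrb g z)) ∨ (TopTransitive f ∧ ∃ z, ¬ IsMeagre (FOrb g z)) ∨
    ∃ R, MinSatur g R ∧ ∃ z ∈ R, ¬ IsMeagre (FOrb g z)

theorem man_one' (f : Diffeomorph 𝓘(ℝ, E) 𝓘(ℝ, E) M M 1)
    (Es Eu : ∀ x : M, Submodule ℝ (TangentSpace 𝓘(ℝ, E) x)) (hA : IsAnosov f Es Eu) :
    (TopTransitive f → ∀ x, Dense (stL f x)) ∧ (∃ R, MinSatur f R) ∧
    ∃ 𝒰₀ ∈ 𝓝ˢ (diagonal M), ∀ 𝒰 ∈ 𝓝ˢ (diagonal M), 𝒰 ⊆ 𝒰₀ →
      ((∃ R, MinSatur f R ∧ ∃ x ∈ R, ∃ j, StableAt f.toHomeomorph 𝒰 j x) →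
          BoundedHolonomy f.toHomeomorph 𝒰) ∧
      (BoundedHolonomy f.toHomeomorph 𝒰 → ∀ j x, StableAt f.toHomeomorph 𝒰 j x) ∧
      ((∃ R, MinSatur f R ∧ ∃ z ∈ R, ¬ IsMeagre (FOrb f z)) →
        BoundedHolonomy f.toHomeomorph 𝒰) := by
  obtain ⟨m, ee, hee, hemb, hinje⟩ :=
    exists_embedding_euclidean_of_compact (I := 𝓘(ℝ, E)) (M := M)
  let _ : MetricSpace M := hemb.isEmbedding.comapMetricSpace ee
  have hiso : ∀ x y : M, dist x y = ‖ee x - ee y‖ := fun x y => dist_eq_norm (ee x) (ee y)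
  have he1 : ContMDiff 𝓘(ℝ, E) (𝓡 m) 1 ee := hee.of_le (by simp)
  obtain ⟨N, ⟨S, hg, -, -, -⟩, hN⟩ :=
    ((exists_sys_ev hiso he1 hinje f Es Eu hA).and (eventually_ge_atTop 1)).exists
  have : ProperSpace E := FiniteDimensional.proper_real E
  obtain ⟨c, hLP⟩ := exists_LP S
  rw [hg] at hLP
  have hX : ULC M := ulc_of_charted (X := M) (E := E)
  have hne : Nonempty M := inferInstance
  have hL : ∀ x, stL f x = Pool.Agent.Run7.h934.AD.Lf f.toHomeomorph x := fun x =>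
    stL_eq f.toHomeomorph x
  have hO : ∀ z, FOrb f z = {y | ∃ φ ∈ Fol f.toHomeomorph, φ z = y} := by
    intro z
    unfold FOrb
    simp only [hL]
    rfl
  refine ⟨fun hT x => ?_, exists_minSatur f.toHomeomorph,
    {p | dist p.1 p.2 < c}, (diag_iff _).2 ⟨c, hLP.c_pos, fun x y h => h⟩,
    fun 𝒰 h𝒰 hsub => ?_⟩
  · rw [hL]
    exact Pool.Agent.Run7.h934.AD.dense_leaf S f.toHomeomorph hN hg hT x
  have hc : ∀ p ∈ 𝒰, dist p.1 p.2 ≤ c := fun p hp => (hsub hp : dist p.1 p.2 < c).le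
  refine ⟨?_, fun h j x => stable_of_bounded h j x, ?_⟩
  · rintro ⟨R, hR, x, hx, j, h⟩
    exact abs_min hN hLP hX h𝒰 hc ((minSatur_iff f.toHomeomorph R).1 hR) hx h
  · rintro ⟨R, hR, z, hz, h⟩
    rw [hO] at h
    exact abs_fol_min hN hLP hX h𝒰 hc ((minSatur_iff f.toHomeomorph R).1 hR) hz h

/-- the minimal sets of transitive diffeomorphisms -/
theorem minSatur_univ {f : M → M} (hd : ∀ x, Dense (stL f x)) {R : Set M} (hR : MinSatur f R)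
    (x : M) : x ∈ R := by
  obtain ⟨y, hy⟩ := hR.1.2.1
  have h1 : Dense R := (hd y).mono (hR.1.2.2.2 y hy)
  have h2 := hR.1.1.closure_eq
  rw [h1.closure_eq] at h2
  rw [← h2]
  exact mem_univ x

/-- **The manifold theorem.** -/
theorem man_fol (f : Diffeomorph 𝓘(ℝ, E) 𝓘(ℝ, E) M M 1)
    (Es Eu : ∀ x : M, Submodule ℝ (TangentSpace 𝓘(ℝ, E) x)) (hA : IsAnosov f Es Eu) :
    ∃ 𝒰₀ ∈ 𝓝ˢ (diagonal M), ∀ 𝒰 ∈ 𝓝ˢ (diagonal M), 𝒰 ⊆ 𝒰₀ →
      ∀ g : M ≃ₜ M, (g = f.toHomeomorph ∨ g = f.toHomeomorph.symm) →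
      List.TFAE [BoundedHolonomy g 𝒰, ∀ j x, StableAt g 𝒰 j x,
        ∃ R, MinSatur g R ∧ ∃ x ∈ R, ∃ j, StableAt g 𝒰 j x,
        TopTransitive f ∧ ∃ x j, StableAt g 𝒰 j x] ∧
      (GoodOrbit f g → BoundedHolonomy g 𝒰) ∧
      (BoundedHolonomy g 𝒰 → TopTransitive f ∧ GPS f.toHomeomorph ∧
        (∃ π : E → M, IsCoveringMap π ∧ Function.Surjective π) ∧
        ∃ d : ℕ, ∀ (x : M) (S : Set (FundamentalGroup M x)), S.Finite →
          ∃ C : ℕ, ∀ n : ℕ, (S ^ n).ncard ≤ C * (n + 1) ^ d) := by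
  obtain ⟨𝒰₀, h1, h2⟩ := man_final f Es Eu hA
  obtain ⟨d3, e3, 𝒰₁, h3, h4⟩ := man_one' f Es Eu hA
  obtain ⟨d5, e5, 𝒰₂, h5, h6⟩ := man_one' f.symm Eu Es (anosov_symm f Es Eu hA)
  have hne : Nonempty M := inferInstance
  refine ⟨𝒰₀ ∩ (𝒰₁ ∩ 𝒰₂), inter_mem h1 (inter_mem h3 h5), fun 𝒰 h𝒰 hsub g hg => ?_⟩
  have h7 := (h2 𝒰 h𝒰 (hsub.trans inter_subset_left) g hg).2.2
  have key : (TopTransitive f → ∀ x, Dense (stL g x)) ∧ (∃ R, MinSatur g R) ∧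
      ((∃ R, MinSatur g R ∧ ∃ x ∈ R, ∃ j, StableAt g 𝒰 j x) → BoundedHolonomy g 𝒰) ∧
      (BoundedHolonomy g 𝒰 → ∀ j x, StableAt g 𝒰 j x) ∧
      ((∃ R, MinSatur g R ∧ ∃ z ∈ R, ¬ IsMeagre (FOrb g z)) → BoundedHolonomy g 𝒰) := by
    rcases hg with rfl | rfl
    · exact ⟨d3, e3, h4 𝒰 h𝒰 (hsub.trans (inter_subset_right.trans inter_subset_left))⟩
    · exact ⟨fun h => d5 (transitive_symm f.toHomeomorph.symm h), e5,
        h6 𝒰 h𝒰 (hsub.trans (inter_subset_right.trans inter_subset_right))⟩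
  obtain ⟨kd, ⟨R₀, hR₀⟩, k1, k2, k3⟩ := key
  obtain ⟨x₀, hx₀⟩ := hR₀.1.2.1
  refine ⟨?_, ?_, h7⟩
  · tfae_have 1 → 2 := fun h => k2 h
    tfae_have 2 → 3 := fun h => ⟨R₀, hR₀, x₀, hx₀, 0, h 0 x₀⟩
    tfae_have 3 → 1 := k1
    tfae_have 1 → 4 := fun h => ⟨(h7 h).1, x₀, 0, k2 h 0 _⟩
    tfae_have 4 → 3 := fun ⟨hT, x, j, h⟩ => ⟨R₀, hR₀, x, minSatur_univ (kd hT) hR₀ x, j, h⟩
    tfae_finish
  · rintro (h | ⟨hT, z, h⟩ | h)
    · exact k3 ⟨R₀, hR₀, x₀, hx₀, h x₀⟩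
    · exact k3 ⟨R₀, hR₀, z, minSatur_univ (kd hT) hR₀ z, h⟩
    · exact k3 h

end manifold

end Run7.h575.HF
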