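import Pool.Agent.Run7.h575.HF.A4

/-!
# Stable points in minimal repellers (helper575)
-/

set_option autoImplicit false
set_option linter.unusedSectionVars false

open Filter Topology Set Metric unitInterval

namespace Run7.h575.HF

open Pool.Agent.H721R2 Pool.Agent.H789R2.AN Pool.Agent.H789R2.GP Pool.Agent.TH304.K289
open Pool.Agent.TH289 Pool.Agent.TH289.K Pool.Agent.TH289.L
open Pool.Agent.Y330.G Pool.Agent.Y330.H Pool.Agent.Y330.N

section base

variable {X : Type*} [MetricSpace X] [CompactSpace X] {g : X ≃ₜ X} {c : ℝ}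

/-- the forward images of a leaf of a minimal repeller are dense in it -/
theorem forward_dense (h : LP g c) {R : Set X} (hR : MinAtt g.symm R) {y : X} (hy : y ∈ R)
    {O : Set X} (hO : IsOpen O) (hne : (O ∩ R).Nonempty) : ∃ n : ℕ, ∃ p ∈ O, WS g (g^[n] y) p := by
  set U : ℕ → Set X := fun k => {p | ∃ n ≥ k, WS g (g^[n] y) p} with hU
  have hanti : ∀ k, U (k + 1) ⊆ U k := fun k p ⟨n, hn, hp⟩ => ⟨n, by omega, hp⟩
  have hpre : ∀ k, g ⁻¹' (U (k + 1)) = U k := by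
    intro k
    ext p
    constructor
    · rintro ⟨n, hn, hp⟩
      obtain ⟨n', rfl⟩ : ∃ n', n = n' + 1 := ⟨n - 1, by omega⟩
      refine ⟨n', by omega, ?_⟩
      rw [Function.iterate_succ_apply'] at hp
      exact (WS.iter (g := g) 1).1 hp
    · rintro ⟨n, hn, hp⟩
      refine ⟨n + 1, by omega, ?_⟩
      rw [Function.iterate_succ_apply']
      exact (WS.iter (g := g) 1).2 hp
  have hcl : ∀ k x, g x ∈ closure (U (k + 1)) ↔ x ∈ closure (U k) := by
    intro k x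
    have e := g.preimage_closure (U (k + 1))
    rw [hpre] at e
    rw [← e, mem_preimage]
  set D : Set X := ⋂ k, closure (U k) with hD
  have hinv : ∀ x, g x ∈ D ↔ x ∈ D := by
    intro x
    rw [hD, mem_iInter, mem_iInter]
    constructor
    · intro h1 k
      exact (hcl k x).1 (h1 (k + 1))
    · intro h1 k
      exact closure_mono (hanti k) ((hcl k x).2 (h1 k))
  have hAtt : IsAtt g.symm D := by
    refine ⟨isClosed_iInter fun _ => isClosed_closure, ?_, fun x => ?_, fun x hx z hxz => ?_⟩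
    · exact IsCompact.nonempty_iInter_of_sequence_nonempty_isCompact_isClosed _
        (fun k => closure_mono (hanti k))
        (fun k => ⟨g^[k] y, subset_closure ⟨k, le_rfl, WS.refl _ _⟩⟩)
        isClosed_closure.isCompact (fun _ => isClosed_closure)
    · rw [← hinv (g.symm x), g.apply_symm_apply]
    · rw [hD, mem_iInter] at hx ⊢
      intro k
      refine closure_sat h.symm (S := U k) ?_ x (hx k) z hxz
      rintro a ⟨n, hn, ha⟩ b hab
      exact ⟨n, hn, ha.trans hab⟩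
  have hsub : D ⊆ R := by
    refine (iInter_subset _ 0).trans (closure_minimal ?_ hR.1.closed)
    rintro p ⟨n, -, hp⟩
    refine hR.1.sat (g^[n] y) ((inv_iter (fun x => ?_) n y).2 hy) p hp
    have := hR.1.inv (g x)
    rw [g.symm_apply_apply] at this
    exact this.symm
  obtain ⟨z, hz, hzR⟩ := hne
  have hzD := hR.2 D hAtt hsub hzR
  rw [hD, mem_iInter] at hzD
  obtain ⟨p, hp, n, -, hn⟩ := mem_closure_iff.1 (hzD 0) O hO hz
  exact ⟨n, p, hp, hn⟩

theorem pm_back {ρ : ℝ} {m n : ℕ} {y : X} (h : PM g ρ m (g^[n] y)) : PM g ρ (m + n) y := by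
  intro τ Δ h0 hΔ hs r
  obtain ⟨Δ', b1, b2⟩ := over_shift (n : ℤ) hΔ
  have h1 := h (zpath (n : ℤ) τ) Δ' (by rw [zpath_apply, h0, zp_nat]) b1 (by
    rw [b2, zp_nat, ← Function.iterate_add_apply, ← Function.iterate_add_apply]
    exact hs) r
  rw [b2, zpath_apply, zp_nat, zp_nat] at h1
  exact sr_pull h1

theorem pm_unif_on {ρ : ℝ} {R : Set X} (hR : IsCompact R)
    (h : ∀ x ∈ R, ∃ δ > 0, ∃ m' : ℕ, ∀ x', dist x' x < δ → PM g ρ m' x') :
    ∃ m' : ℕ, ∀ x ∈ R, PM g ρ m' x := by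
  have h' : ∀ x : X, ∃ δ > 0, ∃ m' : ℕ, x ∈ R → ∀ x', dist x' x < δ → PM g ρ m' x' := by
    intro x
    by_cases hx : x ∈ R
    · obtain ⟨δ, hδ, m, hm⟩ := h x hx
      exact ⟨δ, hδ, m, fun _ => hm⟩
    · exact ⟨1, one_pos, 0, fun h => absurd h hx⟩
  choose δ hδ mm hmm using h'
  obtain ⟨F, hFR, hF⟩ := hR.elim_nhds_subcover (fun x => ball x (δ x))
    (fun x _ => ball_mem_nhds x (hδ x))
  refine ⟨F.sup mm, fun x hxR => ?_⟩
  obtain ⟨x₀, hx₀, hx⟩ := Set.mem_iUnion₂.1 (hF hxR)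
  exact (hmm x₀ (hFR _ hx₀) x hx).mono (Finset.le_sup (f := mm) hx₀)

theorem inv_zpow {R : Set X} (hR : ∀ x, g x ∈ R ↔ x ∈ R) (n : ℤ) (x : X) :
    (g ^ n) x ∈ R ↔ x ∈ R := by
  obtain ⟨k, rfl | rfl⟩ := Int.eq_nat_or_neg n
  · rw [zp_nat]
    exact inv_iter hR k x
  · rw [zp_neg]
    exact inv_iter (inv_symm hR) k x

/-- persistence on an invariant set gives bounded holonomies from its points -/
theorem bound_on {ρ : ℝ} {m : ℕ} {R : Set X} (hR : ∀ x, g x ∈ R ↔ x ∈ R)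
    (h : ∀ x ∈ R, PM g ρ m x) : ∀ τ : C(I, SM g), (τ 0).val ∈ R → ∀ (y p : X) (i : ℤ),
      Lz g ρ i (τ 0).val y → Lft g τ y p → Lz g ρ (i + m) (τ 1).val p := by
  rintro τ hτ y p i h1 ⟨Δ, a1, a2, a3⟩
  obtain ⟨Δ', b1, b2⟩ := over_shift (-(i + (m : ℤ))) a1
  have h2 := h _ ((inv_zpow hR (-(i + (m : ℤ))) _).2 hτ) (zpath (-(i + (m : ℤ))) τ) Δ' rfl b1 (by
    rw [b2, a2, ← zp_nat, ← zp_nat, ← zp_add, ← zp_add,
      show (m : ℤ) + -(i + (m : ℤ)) = -i by ring]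
    exact lz_iff.1 h1) 1
  rw [b2, zpath_apply, a3] at h2
  exact lz_iff.2 h2

/-- **A minimal repeller with a stable point is everything.** -/
theorem rep_univ [ConnectedSpace X] [Nontrivial X] (hg : LP g c) (hX : ULC X) {c₁ : ℝ}
    (hc₁ : 0 < c₁) (hs : Sl g c c₁) (hs' : Sl g.symm c c₁) {ρ : ℝ} (hρ0 : 0 < ρ)
    (hρ : 2 * ρ ≤ c) (hρ' : 4 * ρ ≤ c₁) {R : Set X} (hR : MinAtt g.symm R) {z : X} (hz : z ∈ R)
    {m : ℕ} (hm : PM g ρ m z) : ∃ m', ∀ x, PM g (2 * ρ) m' x := by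
  have hinv : ∀ x, g x ∈ R ↔ x ∈ R := fun x => by
    have := hR.1.inv (g x)
    rw [g.symm_apply_apply] at this
    exact this.symm
  obtain ⟨δ, hδ, m₁, hO⟩ := pm_open hg hX hc₁ hs hs' hρ0 hρ hm
  obtain ⟨K, hK⟩ := pm_unif_on (g := g) (ρ := 2 * ρ) hR.1.closed.isCompact fun y hy => by
    obtain ⟨n, p, hp, hn⟩ := forward_dense hg hR hy (isOpen_ball (x := z) (ε := δ))
      ⟨z, mem_ball_self hδ, hz⟩
    obtain ⟨δ₂, hδ₂, m₂, h2⟩ := pm_point hg hX hc₁ hs' (show 0 < 2 * ρ by linarith) hρ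
      (isOpen_ball (x := z) (ε := δ)) (fun z' hz' => hO z' hz') ⟨p, hp, hn⟩
    obtain ⟨δ₃, hδ₃, h3⟩ := Metric.continuousAt_iff.1
      ((g.continuous.iterate n).continuousAt (x := y)) δ₂ hδ₂
    exact ⟨δ₃, hδ₃, m₂ + n, fun x' hx' => pm_back (h2 _ (h3 hx'))⟩
  have hB := bound_on hinv hK
  have hu := no_repeller' hg hX hc₁ hs (show 0 < 2 * ρ by linarith) (by linarith) hR
    ⟨K, fun R₀ hR₀ h0 h1 => by
      obtain ⟨τ, hτ⟩ := hR₀.pathS 0
      obtain ⟨Δ, d1, d2⟩ := hR₀.tr.strip 0 1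
      have := hB τ (by rw [hτ]; exact h0) (R₀ 0 1) (R₀ 1 1) 0 (by
        rw [hτ]
        exact lz_nat.2 h1)
        ⟨Δ, fun r => by rw [d1, hτ], d2 0, d2 1⟩
      rw [hτ, zero_add] at this
      exact lz_nat.1 this⟩
  rw [hu] at hK
  exact ⟨K, fun x => hK x (mem_univ x)⟩

end base

variable {X : Type*} [MetricSpace X] [CompactSpace X] {f : X ≃ₜ X} {c : ℝ}

theorem stable_mono {𝒰 : Set (X × X)} {j j' : ℤ} {x : X} (h : StableAt f 𝒰 j x) (hj : j ≤ j') :
    StableAt f 𝒰 j' x := by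
  obtain ⟨i, hi⟩ := h
  exact ⟨i, fun α β h0 hα hβ hαβ hl n hn => hi α β h0 hα hβ hαβ hl n (hj.trans hn)⟩

/-- a minimal repeller of `f` is covered by the images of a minimal repeller of its power -/
theorem exists_power_rep {N : ℕ} (hN : 1 ≤ N) {R : Set X} (hR : MinAtt f.symm R) {z : X}
    (hz : z ∈ R) : ∃ B, MinAtt (iterHomeo f N).symm B ∧ ∃ i : ℕ, f.symm^[i] z ∈ B := by
  have hinv : ∀ x, f x ∈ R ↔ x ∈ R := fun x => by
    have := hR.1.inv (f x)
    rw [f.symm_apply_apply] at this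
    exact this.symm
  have hAtt : IsAtt (iterHomeo f N).symm R := by
    refine ⟨hR.1.closed, hR.1.nonempty, fun x => ?_, fun x hx y hxy => ?_⟩
    · have e : ∀ x, (iterHomeo f N) x ∈ R ↔ x ∈ R := fun x => by
        have := it_iter f N 1 x
        rw [Function.iterate_one, mul_one] at this
        rw [this]
        exact inv_iter hinv N x
      rw [← e ((iterHomeo f N).symm x), (iterHomeo f N).apply_symm_apply]
    · refine hR.1.sat x hx y ?_
      exact (WS_iter_iff f hN x y).1 hxy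
  obtain ⟨B, hBR, hB⟩ := exists_minAtt hAtt
  refine ⟨B, hB, ?_⟩
  have hBinv : ∀ x, f^[N] x ∈ B ↔ x ∈ B := fun x => by
    have h1 := hB.1.inv ((iterHomeo f N) x)
    rw [(iterHomeo f N).symm_apply_apply] at h1
    have := it_iter f N 1 x
    rw [Function.iterate_one, mul_one] at this
    rw [← this]
    exact h1.symm
  -- the union of the images
  set C : Set X := {x | ∃ i < N, f.symm^[i] x ∈ B} with hC
  have hCatt : IsAtt f.symm C := by
    refine ⟨?_, ?_, fun x => ?_, ?_⟩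
    · have : C = ⋃ i ∈ Finset.range N, (f.symm^[i]) ⁻¹' B := by
        ext x
        simp [hC]
      rw [this]
      exact isClosed_biUnion_finset fun i _ => hB.1.closed.preimage (f.symm.continuous.iterate i)
    · obtain ⟨b, hb⟩ := hB.1.nonempty
      exact ⟨b, 0, by omega, hb⟩
    · constructor
      · rintro ⟨i, hi, h⟩
        rw [← Function.iterate_succ_apply] at h
        rcases Nat.lt_or_ge (i + 1) N with h1 | h1
        · exact ⟨i + 1, h1, h⟩
        · have e : i + 1 = N := by omega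
          rw [show i.succ = N from e] at h
          refine ⟨0, by omega, ?_⟩
          rw [← hBinv, iterR] at h
          exact h
      · rintro ⟨i, hi, h⟩
        rcases Nat.eq_zero_or_pos i with rfl | h1
        · refine ⟨N - 1, by omega, ?_⟩
          rw [← Function.iterate_succ_apply, show (N - 1).succ = N by omega, ← hBinv, iterR]
          exact h
        · refine ⟨i - 1, by omega, ?_⟩
          rw [← Function.iterate_succ_apply, show (i - 1).succ = i by omega]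
          exact h
    · rintro x ⟨i, hi, hx⟩ y hxy
      refine ⟨i, hi, hB.1.sat _ hx _ ?_⟩
      show WS (iterHomeo f N) (f.symm^[i] x) (f.symm^[i] y)
      rw [WS_iter_iff f hN, ← WS.iter (g := f) i, iterR, iterR]
      exact hxy
  have hCR : C ⊆ R := by
    rintro x ⟨i, -, hx⟩
    exact (inv_iter hR.1.inv i x).1 (hBR hx)
  obtain ⟨i, -, hi⟩ := hR.2 C hCatt hCR hz
  exact ⟨i, hi⟩

/-- **A stable point in a minimal repeller.** -/
theorem abs_min [ConnectedSpace X] {N : ℕ} (hN : 1 ≤ N) (hLP : LP (iterHomeo f N) c) (hX : ULC X)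
    {𝒰 : Set (X × X)} (h𝒰 : 𝒰 ∈ 𝓝ˢ (diagonal X)) (hc : ∀ p ∈ 𝒰, dist p.1 p.2 ≤ c)
    {R : Set X} (hR : MinAtt f.symm R) {x : X} (hx : x ∈ R) {j : ℤ} (h : StableAt f 𝒰 j x) :
    BoundedHolonomy f 𝒰 := by
  rcases subsingleton_or_nontrivial X with hsub | hnt
  · exact bhol_trivial f
  have hc0 := hLP.c_pos
  obtain ⟨c₁, hc₁, hs⟩ := exists_sl hLP
  obtain ⟨c₂, hc₂, hs'⟩ := exists_sl hLP.symm
  obtain ⟨r, hr, h2⟩ := zlevel_of_lz f N hN h𝒰
  set c₃ := min c (min c₁ c₂) with hc₃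
  have hc₃0 : 0 < c₃ := by positivity
  have k0 : c₃ ≤ c := min_le_left _ _
  have k1 : c₃ ≤ c₁ := (min_le_right _ _).trans (min_le_left _ _)
  have k2 : c₃ ≤ c₂ := (min_le_right _ _).trans (min_le_right _ _)
  set ρ := min (r / 2) (c₃ / 4) with hρ
  have hρ0 : 0 < ρ := by positivity
  have hρ1 : 4 * ρ ≤ c₃ := by linarith [min_le_right (r / 2) (c₃ / 4)]
  have hρ2 : 2 * ρ ≤ r := by linarith [min_le_left (r / 2) (c₃ / 4)]
  obtain ⟨A, hA⟩ := pw (c := c) hρ0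
  obtain ⟨B, hB, i, hi⟩ := exists_power_rep hN hR hx
  have h3 := stable_shift h (-(i : ℤ))
  rw [zp_neg] at h3
  set b := f.symm^[i] x with hb
  set q : ℤ := j + -(i : ℤ) with hq
  have hN' : (0 : ℤ) < N := by omega
  have h4 : StableAt f 𝒰 ((N : ℤ) * q.natAbs) b := by
    refine stable_mono h3 ?_
    have h5 : q ≤ 1 * (q.natAbs : ℤ) := by omega
    exact h5.trans (mul_le_mul_of_nonneg_right (by omega) (by omega))
  have h5 := stable_shift h4 ((N : ℤ) * (-(A + 1 + q.natAbs)))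
  rw [show (N : ℤ) * q.natAbs + (N : ℤ) * (-(A + 1 + q.natAbs)) = -((N : ℤ) * (A + 1)) by ring,
    ← zp_iter] at h5
  obtain ⟨m, hm⟩ := pm_of_stable hN hLP hc h2 (by linarith) hA h5
  have hBinv : ∀ x, (iterHomeo f N) x ∈ B ↔ x ∈ B := fun x => by
    have h1 := hB.1.inv ((iterHomeo f N) x)
    rw [(iterHomeo f N).symm_apply_apply] at h1
    exact h1.symm
  obtain ⟨m', hm'⟩ := rep_univ hLP hX hc₃0 (hs.mono k1) (hs'.mono k2) hρ0 (by linarith) hρ1 hB
    ((inv_zpow hBinv _ _).2 hi) hm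
  exact bhol_of hN hLP hc h2 (by linarith) hρ2 (bound_of_pm hm')

/-- **A nonmeagre orbit of a point of a minimal repeller.** -/
theorem abs_fol_min [ConnectedSpace X] {N : ℕ} (hN : 1 ≤ N) (hLP : LP (iterHomeo f N) c)
    (hX : ULC X) {𝒰 : Set (X × X)} (h𝒰 : 𝒰 ∈ 𝓝ˢ (diagonal X)) (hc : ∀ p ∈ 𝒰, dist p.1 p.2 ≤ c)
    {R : Set X} (hR : MinAtt f.symm R) {z : X} (hz : z ∈ R)
    (hm : ¬ IsMeagre {y | ∃ φ ∈ Fol f, φ z = y}) : BoundedHolonomy f 𝒰 := by
  rcases subsingleton_or_nontrivial X with hsub | hnt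
  · exact bhol_trivial f
  have hc0 := hLP.c_pos
  obtain ⟨c₁, hc₁, hs⟩ := exists_sl hLP
  obtain ⟨c₂, hc₂, hs'⟩ := exists_sl hLP.symm
  obtain ⟨r, hr, h2⟩ := zlevel_of_lz f N hN h𝒰
  set c₃ := min c (min c₁ c₂) with hc₃
  have hc₃0 : 0 < c₃ := by positivity
  have k0 : c₃ ≤ c := min_le_left _ _
  have k1 : c₃ ≤ c₁ := (min_le_right _ _).trans (min_le_left _ _)
  have k2 : c₃ ≤ c₂ := (min_le_right _ _).trans (min_le_right _ _)
  set ρ := min (r / 2) (c₃ / 4) with hρ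
  have hρ0 : 0 < ρ := by positivity
  have hρ1 : 4 * ρ ≤ c₃ := by linarith [min_le_right (r / 2) (c₃ / 4)]
  have hρ2 : 2 * ρ ≤ r := by linarith [min_le_left (r / 2) (c₃ / 4)]
  obtain ⟨B, hB, i, hi⟩ := exists_power_rep hN hR hz
  have hpow : (f ^ (i : ℤ)) ∈ Fol f := fun y w => by
    rw [zp_nat, zp_nat, WS.iter]
  have hm' : ¬ IsMeagre {y | ∃ φ ∈ Fol (iterHomeo f N), φ (f.symm^[i] z) = y} := by
    rw [fol_iter f hN]
    intro h
    refine hm (h.mono ?_)
    rintro _ ⟨φ, hφ, rfl⟩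
    refine ⟨(f ^ (i : ℤ)).trans φ, Fol.trans_mem hpow hφ, ?_⟩
    show φ ((f ^ (i : ℤ)) (f.symm^[i] z)) = φ z
    rw [zp_nat, iterR]
  obtain ⟨m, hm⟩ := pm_of_orbit hLP hc₂ hs' hρ0 (by linarith) hm'
  obtain ⟨m', hm'⟩ := rep_univ hLP hX hc₃0 (hs.mono k1) (hs'.mono k2) hρ0 (by linarith) hρ1 hB
    hi hm
  exact bhol_of hN hLP hc h2 (by linarith) hρ2 (bound_of_pm hm')

end Run7.h575.HF
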